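import Mathlib

/-!
# Cyclic designs with `k = lambda + 1` and no system of disjoint representatives
-/

set_option autoImplicit false

namespace Pool.Agent.Results.MP_1dd1a8_co.ShortOrbits

open Finset

/-- The translate of a block. -/
def shift {v : ℕ} (B : Finset (ZMod v)) (t : ZMod v) : Finset (ZMod v) := B.image (· + t)

/-- `m` is the multiplicity function of a cyclic `(v, k, lam)`-design: a multiset of
`k`-subsets of `ZMod v`, invariant under translation, in which every pair of distinct points
lies in exactly `lam` blocks counted with multiplicity. -/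
structure IsCyclicDesign (v k lam : ℕ) [NeZero v] (m : Finset (ZMod v) → ℕ) : Prop where
  size : ∀ B, m B ≠ 0 → B.card = k
  cover : ∀ x y : ZMod v, x ≠ y →
    ∑ B ∈ univ.filter (fun B : Finset (ZMod v) => x ∈ B ∧ y ∈ B), m B = lam
  inv : ∀ B t, m (shift B t) = m B

/-- The translation orbit of a block. -/
def orb {v : ℕ} [NeZero v] (B : Finset (ZMod v)) : Finset (Finset (ZMod v)) :=
  univ.image (shift B)

/-- The design has a system of disjoint representatives: for every translation orbit `orb B`
and every copy `j < m B` of it in the design a block `c (orb B) j` of this orbit is chosen,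
and the blocks chosen from different block orbits are disjoint. -/
def HasSDR {v : ℕ} [NeZero v] (m : Finset (ZMod v) → ℕ) : Prop :=
  ∃ c : Finset (Finset (ZMod v)) → ℕ → Finset (ZMod v),
    (∀ B j, j < m B → c (orb B) j ∈ orb B) ∧
    (∀ B j B' j', j < m B → j' < m B' → (orb B ≠ orb B' ∨ j ≠ j') →
      Disjoint (c (orb B) j) (c (orb B') j'))

section basic

variable {v : ℕ}

theorem shift_shift (B : Finset (ZMod v)) (s t : ZMod v) : shift (shift B s) t = shift B (s + t) := by
  unfold shift
  rw [Finset.image_image]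
  congr 1
  funext x
  simp [add_assoc]

theorem shift_zero (B : Finset (ZMod v)) : shift B 0 = B := by
  unfold shift
  simp

theorem card_shift (B : Finset (ZMod v)) (t : ZMod v) : (shift B t).card = B.card :=
  Finset.card_image_of_injective _ (add_left_injective t)

theorem mem_shift (B : Finset (ZMod v)) (t x : ZMod v) : x ∈ shift B t ↔ x - t ∈ B := by
  unfold shift
  rw [Finset.mem_image]
  constructor
  · rintro ⟨a, ha, rfl⟩
    simpa using ha
  · intro h
    exact ⟨x - t, h, by simp⟩

variable [NeZero v]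

theorem mem_orb (B C : Finset (ZMod v)) : C ∈ orb B ↔ ∃ t, shift B t = C := by
  unfold orb
  simp

theorem self_mem_orb (B : Finset (ZMod v)) : B ∈ orb B := (mem_orb _ _).2 ⟨0, shift_zero B⟩

theorem mem_orb_symm {B C : Finset (ZMod v)} (h : C ∈ orb B) : B ∈ orb C := by
  obtain ⟨t, rfl⟩ := (mem_orb _ _).1 h
  exact (mem_orb _ _).2 ⟨-t, by rw [shift_shift]; simp [shift_zero]⟩

theorem mem_orb_trans {A B C : Finset (ZMod v)} (h : B ∈ orb A) (h' : C ∈ orb B) : C ∈ orb A := by
  obtain ⟨t, rfl⟩ := (mem_orb _ _).1 h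
  obtain ⟨s, rfl⟩ := (mem_orb _ _).1 h'
  exact (mem_orb _ _).2 ⟨t + s, by rw [shift_shift]⟩

theorem orb_eq_of_mem {B C : Finset (ZMod v)} (h : C ∈ orb B) : orb C = orb B := by
  ext D
  exact ⟨fun hD => mem_orb_trans h hD, fun hD => mem_orb_trans (mem_orb_symm h) hD⟩

theorem card_orb_le (B : Finset (ZMod v)) : (orb B).card ≤ v := by
  refine Finset.card_image_le.trans ?_
  simp [ZMod.card]

theorem two_mul_card_orb_le (B : Finset (ZMod v)) (h : ∃ t : ZMod v, t ≠ 0 ∧ shift B t = B) :
    2 * (orb B).card ≤ v := by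
  obtain ⟨t, ht, hB⟩ := h
  have key : ∀ C ∈ orb B, 2 ≤ (univ.filter (fun s : ZMod v => shift B s = C)).card := by
    intro C hC
    obtain ⟨s, rfl⟩ := (mem_orb _ _).1 hC
    have : ({s, t + s} : Finset (ZMod v)) ⊆ univ.filter (fun s' : ZMod v => shift B s' = shift B s) := by
      intro z hz
      rw [Finset.mem_insert, Finset.mem_singleton] at hz
      rw [Finset.mem_filter]
      refine ⟨Finset.mem_univ _, ?_⟩
      rcases hz with rfl | rfl
      · rfl
      · rw [← shift_shift, hB]
    refine le_trans ?_ (Finset.card_le_card this)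
    rw [Finset.card_pair]
    intro h'
    exact ht (by simpa using h'.symm)
  have h1 : (univ : Finset (ZMod v)).card =
      ∑ C ∈ orb B, (univ.filter (fun s : ZMod v => shift B s = C)).card := by
    refine Finset.card_eq_sum_card_fiberwise ?_
    intro s _
    exact (mem_orb _ _).2 ⟨s, rfl⟩
  rw [Finset.card_univ, ZMod.card] at h1
  have h2 : (orb B).card • 2 ≤ ∑ C ∈ orb B, (univ.filter (fun s : ZMod v => shift B s = C)).card :=
    Finset.card_nsmul_le_sum _ _ _ key
  rw [smul_eq_mul] at h2
  omega

/-- The set of representatives of a design with a system of disjoint representatives. -/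
theorem exists_reps {k lam : ℕ} (hk : 1 ≤ k) {m : Finset (ZMod v) → ℕ}
    (hm : IsCyclicDesign v k lam m) (h : HasSDR m) :
    ∃ R : Finset (Finset (ZMod v)), (∀ C ∈ R, m C ≠ 0) ∧
      (∀ C ∈ R, ∀ D ∈ R, C ≠ D → Disjoint C D) ∧
      ∀ B, (R.filter (fun C => C ∈ orb B)).card = m B := by
  classical
  obtain ⟨c, hc, hd⟩ := h
  have hminv : ∀ B C, C ∈ orb B → m C = m B := by
    intro B C hC
    obtain ⟨t, rfl⟩ := (mem_orb _ _).1 hC
    exact hm.inv B t
  refine ⟨univ.biUnion (fun B => (range (m B)).image (c (orb B))), ?_, ?_, ?_⟩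
  · intro C hC
    rw [Finset.mem_biUnion] at hC
    obtain ⟨B, -, hB⟩ := hC
    rw [Finset.mem_image] at hB
    obtain ⟨j, hj, rfl⟩ := hB
    rw [Finset.mem_range] at hj
    rw [hminv B _ (hc B j hj)]
    omega
  · intro C hC D hD hCD
    rw [Finset.mem_biUnion] at hC hD
    obtain ⟨B, -, hB⟩ := hC
    obtain ⟨B', -, hB'⟩ := hD
    rw [Finset.mem_image] at hB hB'
    obtain ⟨j, hj, rfl⟩ := hB
    obtain ⟨j', hj', rfl⟩ := hB'
    rw [Finset.mem_range] at hj hj'
    refine hd B j B' j' hj hj' ?_
    by_contra hcon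
    push Not at hcon
    exact hCD (by rw [hcon.1, hcon.2])
  · intro B
    have h1 : (univ.biUnion (fun B => (range (m B)).image (c (orb B)))).filter
        (fun C => C ∈ orb B) = (range (m B)).image (c (orb B)) := by
      ext C
      rw [Finset.mem_filter, Finset.mem_biUnion]
      constructor
      · rintro ⟨⟨B', -, hB'⟩, hC⟩
        rw [Finset.mem_image] at hB' ⊢
        obtain ⟨j, hj, rfl⟩ := hB'
        rw [Finset.mem_range] at hj
        have h2 := orb_eq_of_mem (hc B' j hj)
        have h3 := orb_eq_of_mem hC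
        have h4 : orb B' = orb B := h2.symm.trans h3
        have h5 : m B' = m B := by
          have : B' ∈ orb B := by rw [← h4]; exact self_mem_orb B'
          exact hminv B B' this
        exact ⟨j, by rw [Finset.mem_range]; omega, by rw [h4]⟩
      · intro hC
        refine ⟨⟨B, Finset.mem_univ _, hC⟩, ?_⟩
        rw [Finset.mem_image] at hC
        obtain ⟨j, hj, rfl⟩ := hC
        exact hc B j (Finset.mem_range.1 hj)
    rw [h1, Finset.card_image_of_injOn, Finset.card_range]
    intro j hj j' hj' hjj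
    have hj : j < m B := by simpa using hj
    have hj' : j' < m B := by simpa using hj'
    by_contra hne
    have h2 := hd B j B j' hj hj' (Or.inr hne)
    have h3 : c (orb B) j = ∅ := by
      have h4 : c (orb B) j = c (orb B) j' := hjj
      rw [← h4] at h2
      exact disjoint_self.1 h2
    have h5 : (c (orb B) j).card = k := by
      apply hm.size
      rw [hminv B _ (hc B j hj)]
      omega
    rw [h3] at h5
    simp at h5
    omega

/-- Weighted count of blocks through the representatives. -/
theorem sum_eq_sum_orb {m : Finset (ZMod v) → ℕ} {R : Finset (Finset (ZMod v))}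
    (hR : ∀ B, (R.filter (fun C => C ∈ orb B)).card = m B) (P : Finset (ZMod v) → Prop)
    [DecidablePred P] (hP : ∀ B C, C ∈ orb B → (P B ↔ P C)) :
    ∑ B ∈ univ.filter P, m B = ∑ C ∈ R.filter P, (orb C).card := by
  have h1 : ∀ B : Finset (ZMod v), m B = ∑ C ∈ R, if C ∈ orb B then 1 else 0 := by
    intro B
    rw [← hR B, Finset.card_filter]
  simp_rw [h1]
  rw [Finset.sum_comm, Finset.sum_filter (s := R)]
  refine Finset.sum_congr rfl fun C _ => ?_
  rw [← Finset.card_filter, Finset.filter_filter]
  split_ifs with hC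
  · congr 1
    ext B
    rw [Finset.mem_filter]
    constructor
    · rintro ⟨-, -, h⟩
      exact mem_orb_symm h
    · intro h
      exact ⟨Finset.mem_univ _, (hP B C (mem_orb_symm h)).2 hC, mem_orb_symm h⟩
  · rw [Finset.card_eq_zero, Finset.filter_eq_empty_iff]
    rintro B - ⟨h1, h2⟩
    exact hC ((hP B C h2).1 h1)

/-- The total number of blocks. -/
theorem card_blocks {k lam : ℕ} {m : Finset (ZMod v) → ℕ} (hm : IsCyclicDesign v k lam m) :
    k * (k - 1) * ∑ B : Finset (ZMod v), m B = lam * (v * (v - 1)) := by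
  have h1 : ∑ p ∈ (univ : Finset (ZMod v)).offDiag,
      ∑ B ∈ univ.filter (fun B : Finset (ZMod v) => p.1 ∈ B ∧ p.2 ∈ B), m B =
      lam * (v * (v - 1)) := by
    rw [Finset.sum_congr rfl (g := fun _ => lam)]
    · rw [Finset.sum_const, smul_eq_mul, Finset.offDiag_card, Finset.card_univ, ZMod.card]
      rw [mul_comm, Nat.mul_sub v v 1, mul_one]
    · intro p hp
      rw [Finset.mem_offDiag] at hp
      exact hm.cover p.1 p.2 hp.2.2
  rw [← h1]
  simp_rw [Finset.sum_filter]
  rw [Finset.sum_comm, Finset.mul_sum]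
  refine Finset.sum_congr rfl fun B _ => ?_
  rw [← Finset.sum_filter, Finset.sum_const, smul_eq_mul]
  by_cases hB : m B = 0
  · simp [hB]
  · congr 1
    have h2 : (univ : Finset (ZMod v)).offDiag.filter (fun p => p.1 ∈ B ∧ p.2 ∈ B) = B.offDiag := by
      ext p
      simp only [Finset.mem_filter, Finset.mem_offDiag, Finset.mem_univ, true_and]
      tauto
    rw [h2, Finset.offDiag_card, hm.size B hB, Nat.mul_sub, mul_one]

/-- The union of disjoint blocks of size `k` has at most `v` points. -/
theorem mul_card_le {k : ℕ} {R : Finset (Finset (ZMod v))} (h1 : ∀ C ∈ R, C.card = k)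
    (h2 : ∀ C ∈ R, ∀ D ∈ R, C ≠ D → Disjoint C D) : k * R.card ≤ v := by
  have h3 : (R.biUnion id).card = ∑ C ∈ R, C.card :=
    Finset.card_biUnion (fun C hC D hD hne => h2 C hC D hD hne)
  have h4 : (R.biUnion id).card ≤ v := by
    have := Finset.card_le_univ (R.biUnion id)
    rwa [ZMod.card] at this
  rw [Finset.sum_congr rfl h1, Finset.sum_const, smul_eq_mul] at h3
  rw [mul_comm]
  omega

/-- A cyclic `(v, k, k-1)`-design with a short orbit, `k ≥ 3`, has no system of disjoint
representatives. -/
theorem no_sdr {k : ℕ} (hk : 3 ≤ k) {m : Finset (ZMod v) → ℕ}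
    (hm : IsCyclicDesign v k (k - 1) m)
    (hs : ∃ B, m B ≠ 0 ∧ ∃ t : ZMod v, t ≠ 0 ∧ shift B t = B) : ¬ HasSDR m := by
  intro h
  obtain ⟨R, hR0, hRd, hRc⟩ := exists_reps (by omega) hm h
  obtain ⟨B, hB, t, ht, htB⟩ := hs
  have hcard : k * R.card ≤ v := mul_card_le (fun C hC => hm.size C (hR0 C hC)) hRd
  have hsum : ∑ B : Finset (ZMod v), m B = ∑ C ∈ R, (orb C).card := by
    have := sum_eq_sum_orb hRc (fun _ => True) (fun _ _ _ => Iff.rfl)
    simpa using this
  -- a representative with a short orbit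
  have hne : (R.filter (fun C => C ∈ orb B)).Nonempty := by
    rw [← Finset.card_pos, hRc B]
    omega
  obtain ⟨C, hC⟩ := hne
  rw [Finset.mem_filter] at hC
  have hCs : 2 * (orb C).card ≤ v := by
    rw [orb_eq_of_mem hC.2]
    exact two_mul_card_orb_le B ⟨t, ht, htB⟩
  have h1 : 2 * ∑ C ∈ R, (orb C).card + v ≤ 2 * v * R.card := by
    rw [← Finset.add_sum_erase R _ hC.1]
    have h2 : ∑ D ∈ R.erase C, (orb D).card ≤ (R.erase C).card * v := by
      rw [← smul_eq_mul]
      exact Finset.sum_le_card_nsmul _ _ _ (fun D _ => card_orb_le D)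
    have h3 : (R.erase C).card + 1 = R.card := Finset.card_erase_add_one hC.1
    nlinarith
  have h2 := card_blocks hm
  have hv : 1 ≤ v := Nat.one_le_iff_ne_zero.2 (NeZero.ne v)
  obtain ⟨w, rfl⟩ : ∃ w, v = w + 1 := ⟨v - 1, by omega⟩
  obtain ⟨l, rfl⟩ : ∃ l, k = l + 3 := ⟨k - 3, by omega⟩
  rw [hsum] at h2
  generalize hS : ∑ C ∈ R, (orb C).card = S at *
  generalize R.card = r at *
  have e1 : l + 3 - 1 = l + 2 := by omega
  have e2 : w + 1 - 1 = w := by omega
  rw [e1, e2] at h2
  have h3 : (l + 3) * S = (w + 1) * w := by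
    have : (l + 2) * ((l + 3) * S) = (l + 2) * ((w + 1) * w) := by
      rw [← h2]; ring
    exact Nat.eq_of_mul_eq_mul_left (by omega) this
  -- 2 S + v ≤ 2 v r ; k r ≤ v
  have h4 : (l + 3) * (2 * S + (w + 1)) ≤ (l + 3) * (2 * (w + 1) * r) := Nat.mul_le_mul_left _ h1
  have h5 : (l + 3) * (2 * (w + 1) * r) ≤ 2 * (w + 1) * (w + 1) := by
    calc (l + 3) * (2 * (w + 1) * r) = 2 * (w + 1) * ((l + 3) * r) := by ring
      _ ≤ 2 * (w + 1) * (w + 1) := Nat.mul_le_mul_left _ hcard
  nlinarith

end basic

section dev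

variable {v : ℕ} [NeZero v] {ι σ : Type} [Fintype ι] [Fintype σ]

/-- Multiplicities in the development of a family of base blocks. -/
def devMult (b : ι → σ → ZMod v) (B : Finset (ZMod v)) : ℕ :=
  ∑ i, (univ.filter (fun t : ZMod v => shift (univ.image (b i)) t = B)).card

theorem devMult_cover (b : ι → σ → ZMod v) (hb : ∀ i, Function.Injective (b i)) (x y : ZMod v) :
    ∑ B ∈ univ.filter (fun B : Finset (ZMod v) => x ∈ B ∧ y ∈ B), devMult b B =
      ∑ i, (univ.filter (fun q : σ × σ => b i q.1 - b i q.2 = x - y)).card := by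
  unfold devMult
  rw [Finset.sum_comm]
  refine Finset.sum_congr rfl fun i _ => ?_
  have h1 : (univ.filter (fun t : ZMod v => x ∈ shift (univ.image (b i)) t ∧
      y ∈ shift (univ.image (b i)) t)).card =
      ∑ B ∈ univ.filter (fun B : Finset (ZMod v) => x ∈ B ∧ y ∈ B),
        (univ.filter (fun t : ZMod v => shift (univ.image (b i)) t = B)).card := by
    rw [Finset.card_eq_sum_card_fiberwise (f := fun t => shift (univ.image (b i)) t)
      (t := univ.filter (fun B : Finset (ZMod v) => x ∈ B ∧ y ∈ B))]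
    · refine Finset.sum_congr rfl fun B hB => ?_
      rw [Finset.mem_filter] at hB
      congr 1
      ext t
      simp only [Finset.mem_filter, Finset.mem_univ, true_and]
      constructor
      · exact fun h => h.2
      · intro h
        refine ⟨?_, h⟩
        rw [h]
        exact hB.2
    · intro t ht
      simpa using ht
  rw [← h1]
  symm
  refine Finset.card_bij (fun q _ => x - b i q.1) ?_ ?_ ?_
  · intro q hq
    rw [Finset.mem_filter] at hq ⊢
    refine ⟨Finset.mem_univ _, ?_, ?_⟩
    · rw [mem_shift]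
      simp
    · rw [mem_shift, Finset.mem_image]
      refine ⟨q.2, Finset.mem_univ _, ?_⟩
      have := hq.2
      linear_combination -this
  · intro q hq q' hq' h
    rw [Finset.mem_filter] at hq hq'
    have h1 : b i q.1 = b i q'.1 := by linear_combination -h
    have h2 : b i q.2 = b i q'.2 := by linear_combination h1 + hq'.2 - hq.2
    exact Prod.ext (hb i h1) (hb i h2)
  · intro t ht
    rw [Finset.mem_filter, mem_shift, mem_shift, Finset.mem_image, Finset.mem_image] at ht
    obtain ⟨-, ⟨s, -, hs⟩, ⟨s', -, hs'⟩⟩ := ht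
    refine ⟨(s, s'), ?_, ?_⟩
    · rw [Finset.mem_filter]
      refine ⟨Finset.mem_univ _, ?_⟩
      rw [hs, hs']
      ring
    · simp only [hs]
      ring

theorem devMult_inv (b : ι → σ → ZMod v) (B : Finset (ZMod v)) (t : ZMod v) :
    devMult b (shift B t) = devMult b B := by
  unfold devMult
  refine Finset.sum_congr rfl fun i _ => ?_
  symm
  refine Finset.card_bij (fun s _ => s + t) ?_ ?_ ?_
  · intro s hs
    rw [Finset.mem_filter] at hs ⊢
    refine ⟨Finset.mem_univ _, ?_⟩
    rw [← shift_shift, hs.2]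
  · intro s _ s' _ h
    simpa using h
  · intro s hs
    rw [Finset.mem_filter] at hs
    refine ⟨s - t, ?_, by ring⟩
    rw [Finset.mem_filter]
    refine ⟨Finset.mem_univ _, ?_⟩
    have : shift (shift B t) (-t) = B := by rw [shift_shift]; simp [shift_zero]
    rw [← this, ← hs.2, shift_shift]
    congr 1
    ring

theorem devMult_size (b : ι → σ → ZMod v) (hb : ∀ i, Function.Injective (b i))
    (B : Finset (ZMod v)) (h : devMult b B ≠ 0) : B.card = Fintype.card σ := by
  unfold devMult at h
  obtain ⟨i, -, hi⟩ := Finset.exists_ne_zero_of_sum_ne_zero h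
  rw [Finset.card_ne_zero] at hi
  obtain ⟨t, ht⟩ := hi
  rw [Finset.mem_filter] at ht
  rw [← ht.2, card_shift, Finset.card_image_of_injective _ (hb i), Finset.card_univ]

open Classical in
/-- The cosets of a subgroup, each with multiplicity `l`. -/
noncomputable def cosetMult (K : Finset (ZMod v)) (l : ℕ) (B : Finset (ZMod v)) : ℕ :=
  if ∃ t, shift K t = B then l else 0

theorem cosetMult_inv (K : Finset (ZMod v)) (l : ℕ) (B : Finset (ZMod v)) (t : ZMod v) :
    cosetMult K l (shift B t) = cosetMult K l B := by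
  unfold cosetMult
  congr 1
  rw [eq_iff_iff]
  constructor
  · rintro ⟨s, hs⟩
    refine ⟨s - t, ?_⟩
    have : shift (shift B t) (-t) = B := by rw [shift_shift]; simp [shift_zero]
    rw [← this, ← hs, shift_shift]
    congr 1
    ring
  · rintro ⟨s, hs⟩
    refine ⟨s + t, ?_⟩
    rw [← hs, shift_shift]

theorem cosetMult_cover (S : AddSubgroup (ZMod v)) (K : Finset (ZMod v)) (hK : ∀ z, z ∈ K ↔ z ∈ S)
    (l : ℕ) (x y : ZMod v) [Decidable (x - y ∈ S)] :
    ∑ B ∈ univ.filter (fun B : Finset (ZMod v) => x ∈ B ∧ y ∈ B), cosetMult K l B =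
      if x - y ∈ S then l else 0 := by
  classical
  have key : ∀ t, x ∈ shift K t → shift K t = shift K x := by
    intro t ht
    rw [mem_shift, hK] at ht
    ext z
    rw [mem_shift, mem_shift, hK, hK]
    constructor
    · intro h
      have := S.sub_mem h ht
      have e : z - t - (x - t) = z - x := by ring
      rwa [e] at this
    · intro h
      have := S.add_mem h ht
      have e : z - x + (x - t) = z - t := by ring
      rwa [e] at this
  have hx : x ∈ shift K x := by
    rw [mem_shift, hK, sub_self]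
    exact S.zero_mem
  have hy : y ∈ shift K x ↔ x - y ∈ S := by
    rw [mem_shift, hK, ← S.neg_mem_iff]
    have e : -(y - x) = x - y := by ring
    rw [e]
  split_ifs with h
  · rw [Finset.sum_eq_single (shift K x)]
    · unfold cosetMult
      rw [if_pos ⟨x, rfl⟩]
    · intro B hB hne
      rw [Finset.mem_filter] at hB
      unfold cosetMult
      rw [if_neg]
      rintro ⟨t, rfl⟩
      exact hne (key t hB.2.1)
    · intro hcon
      exact absurd (Finset.mem_filter.2 ⟨Finset.mem_univ _, hx, hy.2 h⟩) hcon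
  · refine Finset.sum_eq_zero fun B hB => ?_
    rw [Finset.mem_filter] at hB
    unfold cosetMult
    rw [if_neg]
    rintro ⟨t, rfl⟩
    rw [key t hB.2.1] at hB
    exact h (hy.1 hB.2.2)

end dev

section construction

variable {k e p : ℕ} [NeZero k] [Fact p.Prime] (g : (ZMod p)ˣ)

/-- The powers of a primitive root, arranged by residues of the exponent. -/
def W (e : ℕ) (g : (ZMod p)ˣ) (z : ZMod k) (i : Fin e) : (ZMod p)ˣ := g ^ (e * z.val + i.val)

theorem W_add (hg : orderOf g = k * e) (z d : ZMod k) (i : Fin e) :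
    W e g (z + d) i = W e g z i * g ^ (e * d.val) := by
  unfold W
  rw [← pow_add, pow_eq_pow_iff_modEq, hg, ZMod.val_add]
  have h1 : e * ((z.val + d.val) % k) ≡ e * (z.val + d.val) [MOD (k * e)] := by
    rw [mul_comm k e]
    exact Nat.ModEq.mul_left' e (Nat.mod_modEq _ _)
  have h2 := h1.add_right i.val
  have e1 : e * (z.val + d.val) + i.val = e * z.val + i.val + e * d.val := by ring
  rwa [e1] at h2

theorem pow_ne_one_of (he : 0 < e) (hg : orderOf g = k * e) (d : ZMod k) (hd : d ≠ 0) :
    g ^ (e * d.val) ≠ 1 := by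
  intro h
  have h1 := orderOf_dvd_of_pow_eq_one h
  rw [hg, mul_comm k e] at h1
  have h2 : k ∣ d.val := Nat.dvd_of_mul_dvd_mul_left he h1
  have h3 : d.val < k := ZMod.val_lt d
  have h4 : d.val = 0 := Nat.eq_zero_of_dvd_of_lt h2 h3
  exact hd ((ZMod.val_eq_zero d).1 h4)

theorem W_inj (hg : orderOf g = k * e) (z z' : ZMod k) (i i' : Fin e)
    (h : W e g z i = W e g z' i') : z = z' ∧ i = i' := by
  unfold W at h
  rw [pow_eq_pow_iff_modEq, hg] at h
  have hb : ∀ (z : ZMod k) (i : Fin e), e * z.val + i.val < k * e := by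
    intro z i
    have h1 : z.val + 1 ≤ k := ZMod.val_lt z
    calc e * z.val + i.val < e * z.val + e := by have := i.2; omega
      _ = e * (z.val + 1) := by ring
      _ ≤ e * k := Nat.mul_le_mul_left _ h1
      _ = k * e := mul_comm _ _
  have h2 : e * z.val + i.val = e * z'.val + i'.val := by
    have := Nat.ModEq.eq_of_lt_of_lt h (hb z i) (hb z' i')
    exact this
  have he : 0 < e := lt_of_le_of_lt (Nat.zero_le _) i.2
  have h3 : z.val = z'.val := by
    have a1 : (e * z.val + i.val) / e = z.val := by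
      rw [Nat.mul_add_div he, Nat.div_eq_of_lt i.2, add_zero]
    have a2 : (e * z'.val + i'.val) / e = z'.val := by
      rw [Nat.mul_add_div he, Nat.div_eq_of_lt i'.2, add_zero]
    rw [← a1, ← a2, h2]
  refine ⟨ZMod.val_injective k h3, ?_⟩
  rw [h3] at h2
  exact Fin.ext (by omega)

theorem W_surj (hg : orderOf g = k * e) (hp : p - 1 = k * e) (w : (ZMod p)ˣ) :
    ∃ (z : ZMod k) (i : Fin e), W e g z i = w := by
  have hcard : Fintype.card (ZMod k × Fin e) = Fintype.card (ZMod p)ˣ := by
    rw [Fintype.card_prod, ZMod.card, Fintype.card_fin, ZMod.card_units_eq_totient,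
      Nat.totient_prime (Fact.out), hp]
  have hinj : Function.Injective (fun q : ZMod k × Fin e => W e g q.1 q.2) := by
    intro q q' h
    obtain ⟨h1, h2⟩ := W_inj g hg _ _ _ _ h
    exact Prod.ext h1 h2
  have hbij := (Fintype.bijective_iff_injective_and_card _).2 ⟨hinj, hcard⟩
  obtain ⟨q, hq⟩ := hbij.2 w
  exact ⟨q.1, q.2, hq⟩

/-- The number of representations of a difference. -/
def Nd (e : ℕ) (g : (ZMod p)ˣ) (d : ZMod k) (y : ZMod p) : ℕ :=
  ∑ i : Fin e, (univ.filter (fun q : ZMod k × ZMod k =>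
    q.1 - q.2 = d ∧ (W e g q.1 i : ZMod p) - (W e g q.2 i : ZMod p) = y)).card

theorem Nd_one (he : 0 < e) (hg : orderOf g = k * e) (hp : p - 1 = k * e) (d : ZMod k) (y : ZMod p)
    (hd : d ≠ 0) (hy : y ≠ 0) : Nd e g d y = 1 := by
  have h1 : ((g ^ (e * d.val) : (ZMod p)ˣ) : ZMod p) - 1 ≠ 0 := by
    intro h
    apply pow_ne_one_of g he hg d hd
    ext
    rw [Units.val_one]
    linear_combination h
  obtain ⟨z, i, hzi⟩ := W_surj g hg hp
    (Units.mk0 (y / (((g ^ (e * d.val) : (ZMod p)ˣ) : ZMod p) - 1)) (div_ne_zero hy h1))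
  have hzi' : (W e g z i : ZMod p) * (((g ^ (e * d.val) : (ZMod p)ˣ) : ZMod p) - 1) = y := by
    rw [hzi, Units.val_mk0, div_mul_cancel₀ _ h1]
  have key : ∀ (j : Fin e) (q : ZMod k × ZMod k), (q.1 - q.2 = d ∧
      (W e g q.1 j : ZMod p) - (W e g q.2 j : ZMod p) = y) ↔ (j = i ∧ q = (z + d, z)) := by
    intro j q
    constructor
    · rintro ⟨h2, h3⟩
      have h4 : q.1 = q.2 + d := by rw [← h2]; ring
      rw [h4, W_add g hg, Units.val_mul] at h3
      have h5 : (W e g q.2 j : ZMod p) * (((g ^ (e * d.val) : (ZMod p)ˣ) : ZMod p) - 1) = y := by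
        linear_combination h3
      have h6 : (W e g q.2 j : ZMod p) = (W e g z i : ZMod p) :=
        mul_right_cancel₀ h1 (h5.trans hzi'.symm)
      obtain ⟨h7, h8⟩ := W_inj g hg _ _ _ _ (Units.ext h6)
      exact ⟨h8, Prod.ext (by rw [h4, h7]) h7⟩
    · rintro ⟨rfl, rfl⟩
      refine ⟨by simp, ?_⟩
      simp only
      rw [W_add g hg, Units.val_mul]
      linear_combination hzi'
  unfold Nd
  simp_rw [key]
  rw [Finset.sum_eq_single i]
  · rw [Finset.card_eq_one]
    refine ⟨(z + d, z), ?_⟩
    ext q
    simp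
  · intro j _ hj
    rw [Finset.card_eq_zero, Finset.filter_eq_empty_iff]
    rintro q - ⟨h2, -⟩
    exact hj h2
  · intro h
    exact absurd (Finset.mem_univ _) h

theorem Nd_zero_left (d : ZMod k) (y : ZMod p) (hd : d = 0) (hy : y ≠ 0) : Nd e g d y = 0 := by
  unfold Nd
  refine Finset.sum_eq_zero fun i _ => ?_
  rw [Finset.card_eq_zero, Finset.filter_eq_empty_iff]
  rintro q - ⟨h1, h2⟩
  apply hy
  rw [hd, sub_eq_zero] at h1
  rw [← h2, h1, sub_self]

theorem Nd_zero_right (hg : orderOf g = k * e) (d : ZMod k) (y : ZMod p) (hd : d ≠ 0) (hy : y = 0) :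
    Nd e g d y = 0 := by
  unfold Nd
  refine Finset.sum_eq_zero fun i _ => ?_
  rw [Finset.card_eq_zero, Finset.filter_eq_empty_iff]
  rintro q - ⟨h1, h2⟩
  apply hd
  rw [hy, sub_eq_zero] at h2
  obtain ⟨h3, -⟩ := W_inj g hg _ _ _ _ (Units.ext h2)
  rw [← h1, h3, sub_self]

theorem sum_Nd (y : ZMod p) : ∑ d : ZMod k, Nd e g d y =
    ∑ i : Fin e, (univ.filter (fun q : ZMod k × ZMod k =>
      (W e g q.1 i : ZMod p) - (W e g q.2 i : ZMod p) = y)).card := by
  unfold Nd
  rw [Finset.sum_comm]
  refine Finset.sum_congr rfl fun i _ => ?_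
  rw [Finset.card_eq_sum_card_fiberwise (f := fun q : ZMod k × ZMod k => q.1 - q.2) (t := univ)
    (fun _ _ => Finset.mem_coe.2 (Finset.mem_univ _))]
  refine Finset.sum_congr rfl fun d _ => ?_
  congr 1
  ext q
  simp only [Finset.mem_filter, Finset.mem_univ, true_and]
  tauto

end construction

/-- For every `k ≥ 2` and every prime `p ≡ 1` modulo `k` there is a cyclic
`(k p, k, k - 1)`-design with a short orbit. -/
theorem exists_design (k p : ℕ) (hk : 2 ≤ k) (hp : p.Prime) (hpk : p ≡ 1 [MOD k])
    (hlt : k < p) [NeZero (k * p)] :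
    ∃ m : Finset (ZMod (k * p)) → ℕ, IsCyclicDesign (k * p) k (k - 1) m ∧
      ∃ B, m B ≠ 0 ∧ ∃ t : ZMod (k * p), t ≠ 0 ∧ shift B t = B := by
  classical
  have : NeZero k := ⟨by omega⟩
  have : Fact p.Prime := ⟨hp⟩
  have : Fact (1 < k) := ⟨by omega⟩
  have hcop : Nat.Coprime k p := (Nat.coprime_of_lt_prime (by omega) hlt hp).symm
  -- exponent
  have hdvd : k ∣ p - 1 := (Nat.modEq_iff_dvd' hp.one_lt.le).1 hpk.symm
  obtain ⟨e, he⟩ := hdvd
  have he0 : 0 < e := by
    rcases Nat.eq_zero_or_pos e with h | h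
    · rw [h, mul_zero] at he
      have := hp.one_lt
      omega
    · exact h
  obtain ⟨g, hgen⟩ := IsCyclic.exists_generator (α := (ZMod p)ˣ)
  have hg : orderOf g = k * e := by
    rw [orderOf_eq_card_of_forall_mem_zpowers hgen, Nat.card_eq_fintype_card, ZMod.card_units, he]
  let φ := ZMod.chineseRemainder hcop
  let b : Option (Fin (k - 1)) × Fin e → ZMod k → ZMod (k * p) := fun q s =>
    match q.1 with
    | none => φ.symm (0, (W e g s q.2 : ZMod p))
    | some _ => φ.symm (s, (W e g s q.2 : ZMod p))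
  have hb : ∀ q, Function.Injective (b q) := by
    rintro ⟨_ | j, i⟩ s s' h
    · have h1 := φ.symm.injective h
      rw [Prod.mk.injEq] at h1
      exact (W_inj g hg _ _ _ _ (Units.ext h1.2)).1
    · have h1 := φ.symm.injective h
      rw [Prod.mk.injEq] at h1
      exact h1.1
  let ψ : ZMod (k * p) →+ ZMod p := (RingHom.snd (ZMod k) (ZMod p)).toAddMonoidHom.comp
    φ.toRingHom.toAddMonoidHom
  have hψ : ∀ z, ψ z = (φ z).2 := fun _ => rfl
  let S : AddSubgroup (ZMod (k * p)) := ψ.ker
  have hS : ∀ z, z ∈ S ↔ (φ z).2 = 0 := fun z => AddMonoidHom.mem_ker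
  let K : Finset (ZMod (k * p)) := univ.image (fun s : ZMod k => φ.symm (s, 0))
  have hK : ∀ z, z ∈ K ↔ z ∈ S := by
    intro z
    rw [hS, Finset.mem_image]
    constructor
    · rintro ⟨s, -, rfl⟩
      simp
    · intro h
      refine ⟨(φ z).1, Finset.mem_univ _, ?_⟩
      apply φ.injective
      rw [RingEquiv.apply_symm_apply]
      exact Prod.ext rfl h.symm
  have hKcard : K.card = k := by
    rw [Finset.card_image_of_injective, Finset.card_univ, ZMod.card]
    intro s s' h
    have h1 := φ.symm.injective h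
    rw [Prod.mk.injEq] at h1
    exact h1.1
  -- counting differences
  have hcount : ∀ z : ZMod (k * p), z ≠ 0 →
      ∑ q : Option (Fin (k - 1)) × Fin e,
        (univ.filter (fun r : ZMod k × ZMod k => b q r.1 - b q r.2 = z)).card +
        (if z ∈ S then k - 1 else 0) = k - 1 := by
    intro z hz
    have hzne : ¬ ((φ z).1 = 0 ∧ (φ z).2 = 0) := by
      rintro ⟨h1, h2⟩
      apply hz
      apply φ.injective
      rw [map_zero]
      exact Prod.ext h1 h2
    rw [Fintype.sum_prod_type, Fintype.sum_option]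
    have h1 : ∀ i : Fin e, (univ.filter (fun r : ZMod k × ZMod k =>
        b (none, i) r.1 - b (none, i) r.2 = z)) = (univ.filter (fun r : ZMod k × ZMod k =>
        (φ z).1 = 0 ∧ (W e g r.1 i : ZMod p) - (W e g r.2 i : ZMod p) = (φ z).2)) := by
      intro i
      ext r
      simp only [Finset.mem_filter, Finset.mem_univ, true_and]
      have e1 : b (none, i) r.1 - b (none, i) r.2 =
          φ.symm (0, (W e g r.1 i : ZMod p) - (W e g r.2 i : ZMod p)) := by
        change φ.symm (0, (W e g r.1 i : ZMod p)) - φ.symm (0, (W e g r.2 i : ZMod p)) = _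
        rw [← map_sub]
        simp
      rw [e1, RingEquiv.symm_apply_eq, Prod.ext_iff]
      constructor
      · rintro ⟨h2, h3⟩
        exact ⟨h2.symm, h3⟩
      · rintro ⟨h2, h3⟩
        exact ⟨h2.symm, h3⟩
    have h2 : ∀ (j : Fin (k - 1)) (i : Fin e), (univ.filter (fun r : ZMod k × ZMod k =>
        b (some j, i) r.1 - b (some j, i) r.2 = z)) = (univ.filter (fun r : ZMod k × ZMod k =>
        r.1 - r.2 = (φ z).1 ∧ (W e g r.1 i : ZMod p) - (W e g r.2 i : ZMod p) = (φ z).2)) := by
      intro j i
      ext r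
      simp only [Finset.mem_filter, Finset.mem_univ, true_and]
      have e1 : b (some j, i) r.1 - b (some j, i) r.2 =
          φ.symm (r.1 - r.2, (W e g r.1 i : ZMod p) - (W e g r.2 i : ZMod p)) := by
        change φ.symm (r.1, (W e g r.1 i : ZMod p)) - φ.symm (r.2, (W e g r.2 i : ZMod p)) = _
        rw [← map_sub]
        rfl
      rw [e1, RingEquiv.symm_apply_eq, Prod.ext_iff]
    simp_rw [h1, h2]
    rw [Finset.sum_const, Finset.card_univ, Fintype.card_fin, smul_eq_mul]
    have h3 : ∑ i : Fin e, (univ.filter (fun r : ZMod k × ZMod k =>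
        r.1 - r.2 = (φ z).1 ∧ (W e g r.1 i : ZMod p) - (W e g r.2 i : ZMod p) = (φ z).2)).card =
        Nd e g (φ z).1 (φ z).2 := rfl
    rw [h3]
    by_cases hy : (φ z).2 = 0
    · have hd : (φ z).1 ≠ 0 := fun h => hzne ⟨h, hy⟩
      rw [Nd_zero_right g hg _ _ hd hy, if_pos ((hS z).2 hy)]
      have h4 : ∑ i : Fin e, (univ.filter (fun r : ZMod k × ZMod k =>
        (φ z).1 = 0 ∧ (W e g r.1 i : ZMod p) - (W e g r.2 i : ZMod p) = (φ z).2)).card = 0 := by
        refine Finset.sum_eq_zero fun i _ => ?_
        rw [Finset.card_eq_zero, Finset.filter_eq_empty_iff]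
        rintro q - ⟨h1, -⟩
        exact hd h1
      rw [h4]
      omega
    · rw [if_neg (fun h => hy ((hS z).1 h))]
      by_cases hd : (φ z).1 = 0
      · rw [Nd_zero_left g _ _ hd hy]
        have h4 : ∑ i : Fin e, (univ.filter (fun r : ZMod k × ZMod k =>
          (φ z).1 = 0 ∧ (W e g r.1 i : ZMod p) - (W e g r.2 i : ZMod p) = (φ z).2)).card =
            ∑ d : ZMod k, Nd e g d (φ z).2 := by
          rw [sum_Nd]
          refine Finset.sum_congr rfl fun i _ => ?_
          congr 1
          ext r
          simp only [Finset.mem_filter, Finset.mem_univ, true_and]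
          exact ⟨fun h => h.2, fun h => ⟨hd, h⟩⟩
        rw [h4, ← Finset.add_sum_erase univ _ (Finset.mem_univ (0 : ZMod k)),
          Nd_zero_left g 0 _ rfl hy, Finset.sum_congr rfl (g := fun _ => 1)]
        · rw [Finset.sum_const, Finset.card_erase_of_mem (Finset.mem_univ _), Finset.card_univ,
            ZMod.card]
          simp
        · intro d hd'
          exact Nd_one g he0 hg he d _ (Finset.ne_of_mem_erase hd') hy
      · rw [Nd_one g he0 hg he _ _ hd hy]
        have h4 : ∑ i : Fin e, (univ.filter (fun r : ZMod k × ZMod k =>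
          (φ z).1 = 0 ∧ (W e g r.1 i : ZMod p) - (W e g r.2 i : ZMod p) = (φ z).2)).card = 0 := by
          refine Finset.sum_eq_zero fun i _ => ?_
          rw [Finset.card_eq_zero, Finset.filter_eq_empty_iff]
          rintro q - ⟨h1, -⟩
          exact hd h1
        rw [h4]
        omega
  refine ⟨fun B => devMult b B + cosetMult K (k - 1) B, ⟨?_, ?_, ?_⟩, K, ?_, φ.symm (1, 0), ?_, ?_⟩
  · intro B hB
    by_cases h1 : devMult b B = 0
    · have h2 : cosetMult K (k - 1) B ≠ 0 := by
        intro h2
        exact hB (by simp only [h1, h2])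
      unfold cosetMult at h2
      split_ifs at h2 with h3
      · obtain ⟨t, rfl⟩ := h3
        rw [card_shift, hKcard]
      · exact absurd rfl h2
    · rw [devMult_size b hb B h1, ZMod.card]
  · intro x y hxy
    rw [Finset.sum_add_distrib, devMult_cover b hb, cosetMult_cover S K hK]
    exact hcount (x - y) (sub_ne_zero.2 hxy)
  · intro B t
    rw [devMult_inv, cosetMult_inv]
  · have h1 : cosetMult K (k - 1) K = k - 1 := by
      unfold cosetMult
      rw [if_pos ⟨0, shift_zero K⟩]
    simp only [h1]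
    omega
  · intro h
    have h1 : ((1 : ZMod k), (0 : ZMod p)) = φ 0 := by
      rw [← h, RingEquiv.apply_symm_apply]
    rw [map_zero, Prod.ext_iff] at h1
    exact one_ne_zero h1.1
  · ext z
    rw [mem_shift, hK, hK, hS, hS, map_sub, RingEquiv.apply_symm_apply]
    simp

/-! ### The case `k = 2` -/

/-- All pairs. -/
def pairs {v : ℕ} (B : Finset (ZMod v)) : ℕ := if B.card = 2 then 1 else 0

theorem pairs_design (v : ℕ) [NeZero v] : IsCyclicDesign v 2 1 (pairs (v := v)) := by
  refine ⟨?_, ?_, ?_⟩
  · intro B hB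
    unfold pairs at hB
    by_contra h
    rw [if_neg h] at hB
    exact hB rfl
  · intro x y hxy
    rw [Finset.sum_eq_single {x, y}]
    · unfold pairs
      rw [if_pos (Finset.card_pair hxy)]
    · intro B hB hne
      rw [Finset.mem_filter] at hB
      unfold pairs
      rw [if_neg]
      intro hcard
      apply hne
      symm
      apply Finset.eq_of_subset_of_card_le
      · intro z hz
        rw [Finset.mem_insert, Finset.mem_singleton] at hz
        rcases hz with rfl | rfl
        · exact hB.2.1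
        · exact hB.2.2
      · rw [hcard, Finset.card_pair hxy]
    · intro h
      exact absurd (Finset.mem_filter.2 ⟨Finset.mem_univ _, by simp, by simp⟩) h
  · intro B t
    unfold pairs
    rw [card_shift]

/-- The parity of a residue modulo `4 n`. -/
def par (n : ℕ) : ZMod (4 * n) →+* ZMod 2 := ZMod.castHom (by omega) (ZMod 2)

/-- A pair with one even and one odd element. -/
def OddPair (n : ℕ) (B : Finset (ZMod (4 * n))) : Prop := ∑ x ∈ B, par n x = 1 ∧ B.card = 2

section two

variable {n : ℕ}

theorem two_cases (a : ZMod 2) : a = 0 ∨ a = 1 := by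
  revert a
  decide

theorem odd_shift (B : Finset (ZMod (4 * n))) (t : ZMod (4 * n)) (h : OddPair n B) :
    OddPair n (shift B t) := by
  obtain ⟨h1, h2⟩ := h
  refine ⟨?_, by rw [card_shift, h2]⟩
  unfold shift
  rw [Finset.sum_image (fun x _ y _ h => by simpa using h)]
  simp_rw [map_add]
  rw [Finset.sum_add_distrib, h1, Finset.sum_const, h2]
  rcases two_cases (par n t) with h | h <;> rw [h] <;> decide

theorem par_double (u : ZMod (4 * n)) [NeZero (4 * n)] (h : u + u = 0) : par n u = 0 := by
  have h1 : ((u.val : ℕ) : ZMod (4 * n)) = u := ZMod.natCast_zmod_val u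
  have h2 : ((u.val + u.val : ℕ) : ZMod (4 * n)) = 0 := by
    rw [Nat.cast_add, h1, h]
  rw [ZMod.natCast_eq_zero_iff] at h2
  rw [← h1, map_natCast, ZMod.natCast_eq_zero_iff]
  obtain ⟨c, hc⟩ := h2
  have h3 : u.val = 2 * (n * c) := by
    have : 4 * n * c = 4 * (n * c) := by ring
    omega
  exact ⟨n * c, h3⟩

variable [NeZero (4 * n)]

theorem card_orb_odd (C : Finset (ZMod (4 * n))) (h : OddPair n C) : (orb C).card = 4 * n := by
  obtain ⟨h1, h2⟩ := h
  obtain ⟨a, b, hab, rfl⟩ := Finset.card_eq_two.1 h2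
  rw [Finset.sum_pair hab] at h1
  have key : ∀ u : ZMod (4 * n), shift {a, b} u = {a, b} → u = 0 := by
    intro u hu
    have ha : a + u ∈ ({a, b} : Finset (ZMod (4 * n))) := by
      rw [← hu, mem_shift]; simp
    have hb : b + u ∈ ({a, b} : Finset (ZMod (4 * n))) := by
      rw [← hu, mem_shift]; simp
    rw [Finset.mem_insert, Finset.mem_singleton] at ha hb
    rcases ha with ha | ha
    · simpa using ha
    · rcases hb with hb | hb
      · exfalso
        have h3 : u + u = 0 := by linear_combination ha + hb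
        have h4 := par_double u h3
        have h5 : par n a = par n b := by rw [← ha, map_add, h4, add_zero]
        rw [h5] at h1
        rcases two_cases (par n b) with h | h <;> rw [h] at h1 <;> revert h1 <;> decide
      · simpa using hb
  unfold orb
  rw [Finset.card_image_of_injective, Finset.card_univ, ZMod.card]
  intro s t hst
  have h3 : shift ({a, b} : Finset (ZMod (4 * n))) (s - t) = {a, b} := by
    have h4 : shift (shift ({a, b} : Finset (ZMod (4 * n))) s) (-t) =
        shift (shift ({a, b} : Finset (ZMod (4 * n))) t) (-t) := congrArg (fun D => shift D (-t)) hst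
    rw [shift_shift, shift_shift, add_neg_cancel, shift_zero, ← sub_eq_add_neg] at h4
    exact h4
  exact sub_eq_zero.1 (key _ h3)

theorem card_par (ε : ZMod 2) : (univ.filter (fun x : ZMod (4 * n) => par n x = ε)).card = 2 * n := by
  have h1 : (univ.filter (fun x : ZMod (4 * n) => par n x = 0)).card =
      (univ.filter (fun x : ZMod (4 * n) => par n x = 1)).card := by
    refine Finset.card_bij (fun x _ => x + 1) ?_ ?_ ?_
    · intro x hx
      rw [Finset.mem_filter] at hx ⊢
      exact ⟨Finset.mem_univ _, by rw [map_add, hx.2, map_one, zero_add]⟩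
    · intro x _ y _ h
      simpa using h
    · intro x hx
      rw [Finset.mem_filter] at hx
      refine ⟨x - 1, ?_, by ring⟩
      rw [Finset.mem_filter]
      exact ⟨Finset.mem_univ _, by rw [map_sub, hx.2, map_one, sub_self]⟩
  have h2 : (univ : Finset (ZMod (4 * n))).card = ∑ ε : ZMod 2,
      (univ.filter (fun x : ZMod (4 * n) => par n x = ε)).card :=
    Finset.card_eq_sum_card_fiberwise (fun _ _ => Finset.mem_coe.2 (Finset.mem_univ _))
  rw [Finset.card_univ, ZMod.card] at h2
  have h3 : ∑ ε : ZMod 2, (univ.filter (fun x : ZMod (4 * n) => par n x = ε)).card =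
      (univ.filter (fun x : ZMod (4 * n) => par n x = 0)).card +
      (univ.filter (fun x : ZMod (4 * n) => par n x = 1)).card := Fin.sum_univ_two _
  rw [h3] at h2
  rcases two_cases ε with h | h <;> rw [h] <;> omega

theorem sum_par : ∑ x : ZMod (4 * n), par n x = 0 := by
  have h1 : ∀ x : ZMod (4 * n), par n x = if par n x = 1 then 1 else 0 := by
    intro x
    rcases two_cases (par n x) with h | h <;> rw [h] <;> decide
  rw [Finset.sum_congr rfl (fun x _ => h1 x), ← Finset.sum_filter, Finset.sum_const, card_par,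
    nsmul_one, Nat.cast_mul]
  have : ((2 : ℕ) : ZMod 2) = 0 := by decide
  rw [this, zero_mul]

open Classical in
theorem card_odd : (univ.filter (fun B : Finset (ZMod (4 * n)) => OddPair n B)).card =
    2 * n * (2 * n) := by
  have h1 : (univ.filter (fun B : Finset (ZMod (4 * n)) => OddPair n B)).card =
      ((univ.filter (fun x : ZMod (4 * n) => par n x = 0)) ×ˢ
        (univ.filter (fun x : ZMod (4 * n) => par n x = 1))).card := by
    symm
    refine Finset.card_bij (fun q _ => {q.1, q.2}) ?_ ?_ ?_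
    · rintro ⟨x, y⟩ hq
      rw [Finset.mem_product, Finset.mem_filter, Finset.mem_filter] at hq
      obtain ⟨⟨-, hx⟩, ⟨-, hy⟩⟩ := hq
      simp only at hx hy
      have hne : x ≠ y := by
        rintro rfl
        rw [hx] at hy
        exact absurd hy (by decide)
      rw [Finset.mem_filter]
      refine ⟨Finset.mem_univ _, ?_, Finset.card_pair hne⟩
      rw [Finset.sum_pair hne, hx, hy, zero_add]
    · rintro ⟨x, y⟩ hq ⟨x', y'⟩ hq' h
      rw [Finset.mem_product, Finset.mem_filter, Finset.mem_filter] at hq hq'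
      obtain ⟨⟨-, hx⟩, ⟨-, hy⟩⟩ := hq
      obtain ⟨⟨-, hx'⟩, ⟨-, hy'⟩⟩ := hq'
      simp only at hx hy hx' hy' h
      have m1 : x ∈ ({x', y'} : Finset (ZMod (4 * n))) := by rw [← h]; simp
      have m2 : y ∈ ({x', y'} : Finset (ZMod (4 * n))) := by rw [← h]; simp
      rw [Finset.mem_insert, Finset.mem_singleton] at m1 m2
      have e1 : x = x' := by
        rcases m1 with m | m
        · exact m
        · rw [m, hy'] at hx
          exact absurd hx (by decide)
      have e2 : y = y' := by
        rcases m2 with m | m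
        · rw [m, hx'] at hy
          exact absurd hy (by decide)
        · exact m
      rw [e1, e2]
    · intro B hB
      rw [Finset.mem_filter] at hB
      obtain ⟨-, h1, h2⟩ := hB
      obtain ⟨a, b, hab, rfl⟩ := Finset.card_eq_two.1 h2
      rw [Finset.sum_pair hab] at h1
      rcases two_cases (par n a) with ha | ha
      · refine ⟨(a, b), ?_, rfl⟩
        rw [ha, zero_add] at h1
        rw [Finset.mem_product, Finset.mem_filter, Finset.mem_filter]
        exact ⟨⟨Finset.mem_univ _, ha⟩, ⟨Finset.mem_univ _, h1⟩⟩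
      · refine ⟨(b, a), ?_, Finset.pair_comm _ _⟩
        rw [ha] at h1
        have hb : par n b = 0 := by
          rcases two_cases (par n b) with h | h
          · exact h
          · rw [h] at h1
            exact absurd h1 (by decide)
        rw [Finset.mem_product, Finset.mem_filter, Finset.mem_filter]
        exact ⟨⟨Finset.mem_univ _, hb⟩, ⟨Finset.mem_univ _, ha⟩⟩
  rw [h1, Finset.card_product, card_par, card_par]

/-- The design of all pairs of `ZMod (4 n)`, `n` odd, has no system of disjoint
representatives. -/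
theorem pairs_no_sdr (hn : Odd n) : ¬ HasSDR (pairs (v := 4 * n)) := by
  classical
  intro h
  have hn0 : 0 < n := hn.pos
  have hm := pairs_design (4 * n)
  obtain ⟨R, hR0, hRd, hRc⟩ := exists_reps (by omega) hm h
  have hsize : ∀ C ∈ R, C.card = 2 := fun C hC => hm.size C (hR0 C hC)
  have hcard : 2 * R.card ≤ 4 * n := mul_card_le hsize hRd
  have hsum : ∑ B : Finset (ZMod (4 * n)), pairs B = ∑ C ∈ R, (orb C).card := by
    have := sum_eq_sum_orb hRc (fun _ => True) (fun _ _ _ => Iff.rfl)
    simpa using this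
  -- the representatives cover everything
  have hge : 4 * n ≤ 2 * R.card := by
    have h1 := card_blocks hm
    rw [hsum] at h1
    have h2 : ∑ D ∈ R, (orb D).card ≤ R.card * (4 * n) :=
      Finset.sum_le_card_nsmul R _ (4 * n) (fun D _ => card_orb_le D)
    have h3 : (4 * n) * (4 * n - 1) ≤ (4 * n) * (2 * R.card) := by
      calc (4 * n) * (4 * n - 1) = 1 * (4 * n * (4 * n - 1)) := by ring
        _ = 2 * (2 - 1) * ∑ D ∈ R, (orb D).card := h1.symm
        _ ≤ 2 * (2 - 1) * (R.card * (4 * n)) := Nat.mul_le_mul_left _ h2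
        _ = (4 * n) * (2 * R.card) := by ring
    have h4 := Nat.le_of_mul_le_mul_left h3 (by omega)
    omega
  have hunion : R.biUnion id = univ := by
    apply Finset.eq_univ_of_card
    have h1 : (R.biUnion id).card = ∑ C ∈ R, C.card :=
      Finset.card_biUnion (fun C hC D hD hne => hRd C hC D hD hne)
    rw [Finset.sum_congr rfl hsize, Finset.sum_const, smul_eq_mul] at h1
    rw [h1, ZMod.card]
    omega
  -- odd representatives
  have hinv : ∀ B C, C ∈ orb B → (OddPair n B ↔ OddPair n C) := by
    intro B C hC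
    constructor
    · intro hB
      obtain ⟨t, rfl⟩ := (mem_orb _ _).1 hC
      exact odd_shift B t hB
    · intro hB
      obtain ⟨t, ht⟩ := (mem_orb _ _).1 (mem_orb_symm hC)
      rw [← ht]
      exact odd_shift C t hB
  have h1 := sum_eq_sum_orb hRc (OddPair n) hinv
  have h2 : ∑ B ∈ univ.filter (OddPair n), pairs B =
      (univ.filter (fun B : Finset (ZMod (4 * n)) => OddPair n B)).card := by
    rw [Finset.card_eq_sum_ones]
    refine Finset.sum_congr rfl fun B hB => ?_
    rw [Finset.mem_filter] at hB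
    unfold pairs
    rw [if_pos hB.2.2]
  have h3 : ∑ C ∈ R.filter (OddPair n), (orb C).card = (R.filter (OddPair n)).card * (4 * n) := by
    rw [Finset.sum_congr rfl (g := fun _ => 4 * n), Finset.sum_const, smul_eq_mul]
    intro C hC
    exact card_orb_odd C (Finset.mem_filter.1 hC).2
  rw [h2, card_odd, h3] at h1
  have h4 : (R.filter (OddPair n)).card = n := by
    have : (4 * n) * (R.filter (OddPair n)).card = (4 * n) * n := by
      rw [mul_comm (4 * n) (R.filter (OddPair n)).card, ← h1]
      ring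
    exact Nat.eq_of_mul_eq_mul_left (by omega) this
  -- parity
  have h5 : ∑ x : ZMod (4 * n), par n x = ∑ C ∈ R, ∑ x ∈ C, par n x := by
    rw [← hunion]
    exact Finset.sum_biUnion (fun C hC D hD hne => hRd C hC D hD hne)
  have h6 : ∑ C ∈ R, ∑ x ∈ C, par n x = ∑ C ∈ R, if OddPair n C then 1 else 0 := by
    refine Finset.sum_congr rfl fun C hC => ?_
    split_ifs with hodd
    · exact hodd.1
    · rcases two_cases (∑ x ∈ C, par n x) with h | h
      · exact h
      · exact absurd ⟨h, hsize C hC⟩ hodd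
  rw [h6, ← Finset.sum_filter, Finset.sum_const, h4, nsmul_one, sum_par] at h5
  have h7 : ((n : ℕ) : ZMod 2) = 0 := h5.symm
  rw [ZMod.natCast_eq_zero_iff] at h7
  exact (Nat.not_even_iff_odd.2 hn) (even_iff_two_dvd.2 h7)

end two

/-- **Main result.** (1) For `k ≥ 3` a cyclic `(v, k, k-1)`-design with at least one short
orbit has no system of disjoint representatives. (2) For every `lam ≥ 1` and `k = lam + 1`
(so `lam + 1 ≤ k ≤ 2 lam`) there are infinitely many `v` with a cyclic `(v, k, lam)`-design
without a system of disjoint representatives. -/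
theorem result :
    (∀ (k v : ℕ) [NeZero v] (m : Finset (ZMod v) → ℕ), 3 ≤ k → IsCyclicDesign v k (k - 1) m →
      (∃ B, m B ≠ 0 ∧ ∃ t : ZMod v, t ≠ 0 ∧ shift B t = B) → ¬ HasSDR m) ∧
    (∀ lam k : ℕ, 1 ≤ lam → k = lam + 1 → (lam + 1 ≤ k ∧ k ≤ 2 * lam) ∧
      ∀ N : ℕ, ∃ v, N ≤ v ∧ ∃ (_ : NeZero v) (m : Finset (ZMod v) → ℕ),
        IsCyclicDesign v k lam m ∧ ¬ HasSDR m) := by
  refine ⟨fun k v _ m hk hm hs => no_sdr hk hm hs, ?_⟩
  rintro lam k hlam rfl
  refine ⟨⟨le_rfl, by omega⟩, fun N => ?_⟩
  rcases Nat.lt_or_ge 1 lam with h | h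
  · obtain ⟨p, hp, hNp, hpk⟩ := Nat.exists_prime_gt_modEq_one (N + lam + 1) (k := lam + 1) (by omega)
    have hne : NeZero ((lam + 1) * p) := ⟨Nat.mul_ne_zero (by omega) hp.ne_zero⟩
    obtain ⟨m, hm, hs⟩ := exists_design (lam + 1) p (by omega) hp hpk (by omega)
    refine ⟨(lam + 1) * p, ?_, hne, m, hm, no_sdr (by omega) hm hs⟩
    nlinarith
  · have hlam1 : lam = 1 := by omega
    subst hlam1
    have hne : NeZero (4 * (2 * N + 1)) := ⟨by omega⟩
    exact ⟨4 * (2 * N + 1), by omega, hne, pairs, pairs_design _, pairs_no_sdr ⟨N, rfl⟩⟩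

end Pool.Agent.Results.MP_1dd1a8_co.ShortOrbits
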